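import Pool.Agent.Helper35_WH.Stmt1

/-!
# Module FOLDPATH of the squad MP_8184a0_lc (helper71)
-/

namespace Pool.Agent.Helper35_WH

open FreeGroup Pool.Agent.Helper32_HCK

section conn

theorem h71_small_refl {n K : ℕ} (hK : 1 ≤ K) : Small n K (MulEquiv.refl (FG n)) := by
  intro i
  have h1 : (MulEquiv.refl (FG n)) (of i) = of i := rfl
  have h2 : (MulEquiv.refl (FG n)).symm (of i) = of i := rfl
  rw [h1, h2, FreeGroup.norm_of]
  exact ⟨hK, hK⟩

theorem h71_conn_refl {n K L : ℕ} {u : FG n} (h : u.norm ≤ L) : Conn n K L 0 u u :=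
  ⟨fun _ => u, rfl, rfl, fun _ _ => h, fun i hi => absurd hi (Nat.not_lt_zero i)⟩

theorem h71_conn_snoc {n K L N : ℕ} {u v : FG n} (h : Conn n K L N u v) {τ : FG n ≃* FG n}
    (hτ : Small n K τ) (hL : (τ v).norm ≤ L) : Conn n K L (N + 1) u (τ v) := by
  obtain ⟨w, h0, h1, h2, h3⟩ := h
  refine ⟨fun i => if i ≤ N then w i else τ v, ?_, ?_, ?_, ?_⟩
  · simp [h0]
  · simp
  · intro i hi
    by_cases hiN : i ≤ N
    · simp only [hiN, if_true]; exact h2 i hiN
    · simp only [hiN, if_false]; exact hL
  · intro i hi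
    by_cases hiN : i < N
    · have e1 : i ≤ N := hiN.le
      have e2 : i + 1 ≤ N := hiN
      simp only [e1, e2, if_true]
      exact h3 i hiN
    · have hiN' : i = N := by omega
      subst hiN'
      have e2 : ¬ (i + 1 ≤ i) := by omega
      simp only [le_refl, e2, if_true, if_false]
      exact ⟨τ, hτ, by rw [h1]⟩

theorem h71_conn_cons {n K L N : ℕ} {u v : FG n} {τ : FG n ≃* FG n} (hu : u.norm ≤ L)
    (hτ : Small n K τ) (h : Conn n K L N (τ u) v) : Conn n K L (N + 1) u v := by
  obtain ⟨w, h0, h1, h2, h3⟩ := h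
  refine ⟨fun i => match i with | 0 => u | (j + 1) => w j, rfl, h1, ?_, ?_⟩
  · intro i hi
    cases i with
    | zero => exact hu
    | succ j => exact h2 j (by omega)
  · intro i hi
    cases i with
    | zero => exact ⟨τ, hτ, h0⟩
    | succ j => exact h3 j (by omega)

theorem h71_conn_mono {n K L L' N N' : ℕ} {u v : FG n} (hK : 1 ≤ K) (h : Conn n K L N u v)
    (hL : L ≤ L') (hN : N ≤ N') : Conn n K L' N' u v := by
  obtain ⟨w, h0, h1, h2, h3⟩ := h
  refine ⟨fun i => w (min i N), ?_, ?_, ?_, ?_⟩
  · simp [h0]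
  · simp only [min_eq_right hN]; exact h1
  · intro i _
    exact (h2 _ (min_le_right i N)).trans hL
  · intro i _
    by_cases hiN : i < N
    · have e1 : min i N = i := min_eq_left hiN.le
      have e2 : min (i + 1) N = i + 1 := min_eq_left hiN
      simp only [e1, e2]
      exact h3 i hiN
    · have e1 : min i N = N := min_eq_right (by omega)
      have e2 : min (i + 1) N = N := min_eq_right (by omega)
      simp only [e1, e2]
      exact ⟨MulEquiv.refl _, h71_small_refl hK, rfl⟩

theorem h71_norm_inv_map {n m : ℕ} (φ : FG n →* FG m) (i : Fin n) :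
    (φ (of i)⁻¹).norm = (φ (of i)).norm := by
  rw [_root_.map_inv, FreeGroup.norm_inv_eq]

theorem h71_mk_single {n : ℕ} (x : Lt n) : (mk [x] : FG n) = if x.2 then of x.1 else (of x.1)⁻¹ := by
  rcases x with ⟨i, b⟩
  cases b with
  | true => rfl
  | false => simp [of, inv_mk, invRev]

theorem h71_norm_map_mk {n m : ℕ} (φ : FG n →* FG m) (C : ℕ) (hC : ∀ i, (φ (of i)).norm ≤ C)
    (L : List (Lt n)) : (φ (mk L)).norm ≤ L.length * C := by
  induction L with
  | nil =>
    have : (mk ([] : List (Lt n)) : FG n) = 1 := rfl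
    rw [this, _root_.map_one, FreeGroup.norm_one]; simp
  | cons x L ih =>
    have h1 : (mk (x :: L) : FG n) = mk [x] * mk L := by rw [mul_mk]; rfl
    rw [h1, _root_.map_mul]
    refine (FreeGroup.norm_mul_le _ _).trans ?_
    have h2 : (φ (mk [x])).norm ≤ C := by
      rw [h71_mk_single]
      by_cases hx : x.2 = true
      · rw [if_pos hx]; exact hC _
      · rw [if_neg hx, h71_norm_inv_map]; exact hC _
    rw [List.length_cons, Nat.succ_mul]
    omega

theorem h71_norm_map_le {n m : ℕ} (φ : FG n →* FG m) (C : ℕ) (hC : ∀ i, (φ (of i)).norm ≤ C)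
    (v : FG n) : (φ v).norm ≤ v.norm * C := by
  have := h71_norm_map_mk φ C hC v.toWord
  rw [mk_toWord] at this
  exact this

end conn

section paths
variable {V E α : Type}

theorem h71_path_append {s t : E → V} (L L' : List (E × Bool)) (u w : V) :
    IsPath s t u (L ++ L') w ↔ ∃ m, IsPath s t u L m ∧ IsPath s t m L' w := by
  induction L generalizing u with
  | nil => simp [IsPath]
  | cons x L ih =>
    rcases x with ⟨e, b⟩
    simp only [List.cons_append, IsPath, ih]
    constructor
    · rintro ⟨h, m, h1, h2⟩; exact ⟨m, ⟨h, h1⟩, h2⟩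
    · rintro ⟨m, ⟨h, h1⟩, h2⟩; exact ⟨h, m, h1, h2⟩

theorem h71_path_single {s t : E → V} (e : E) (b : Bool) :
    IsPath s t (if b then s e else t e) [(e, b)] (if b then t e else s e) := by
  simp [IsPath]

/-- reversed path -/
def h71rev (L : List (E × Bool)) : List (E × Bool) := (L.map fun x => (x.1, !x.2)).reverse

theorem h71_path_rev {s t : E → V} (L : List (E × Bool)) (u w : V) (h : IsPath s t u L w) :
    IsPath s t w (h71rev L) u := by
  induction L generalizing u with
  | nil => simp [IsPath, h71rev] at h ⊢; exact h.symm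
  | cons x L ih =>
    rcases x with ⟨e, b⟩
    have h2 := ih _ h.2
    have h3 : h71rev ((e, b) :: L) = h71rev L ++ [(e, !b)] := by simp [h71rev]
    rw [h3, h71_path_append]
    refine ⟨_, h2, ?_⟩
    rw [h.1]
    cases b <;> simp [IsPath]

theorem h71_readW_append (l : E → α) (L L' : List (E × Bool)) :
    readW l (L ++ L') = readW l L ++ readW l L' := by simp [readW]

theorem h71_readW_rev (l : E → α) (L : List (E × Bool)) :
    readW l (h71rev L) = invRev (readW l L) := by
  simp [readW, h71rev, invRev, List.map_map, Function.comp_def]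

/-- the subgroup of the labels of closed paths -/
theorem h71_surj_of {G : LGraph α} (o : G.V) {ι : Type} (φ : FreeGroup ι →* FreeGroup α)
    (hφ : Function.Surjective φ)
    (h : ∀ i, ∃ L, IsPath G.src G.tgt o L o ∧ mk (readW G.lab L) = φ (of i)) : G.Surj o := by
  have key : ∀ x : FreeGroup ι, ∃ L, IsPath G.src G.tgt o L o ∧ mk (readW G.lab L) = φ x := by
    intro x
    induction x using FreeGroup.induction_on with
    | C1 => exact ⟨[], rfl, by rw [_root_.map_one]; rfl⟩
    | of i => exact h i
    | inv_of i ih =>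
      obtain ⟨L, hL, hL'⟩ := ih
      refine ⟨h71rev L, h71_path_rev L _ _ hL, ?_⟩
      rw [h71_readW_rev, ← inv_mk, hL', _root_.map_inv]
    | mul x y hx hy =>
      obtain ⟨L, hL, hL'⟩ := hx
      obtain ⟨M, hM, hM'⟩ := hy
      refine ⟨L ++ M, (h71_path_append L M _ _).2 ⟨_, hL, hM⟩, ?_⟩
      rw [h71_readW_append, ← mul_mk, hL', hM', _root_.map_mul]
  intro g
  obtain ⟨x, rfl⟩ := hφ g
  exact key x

/-- reading a path in the split graph -/
theorem h71_sw {n : ℕ} {G : LGraph (Fin n)} (z : Lt n) (s : Lt n → Bool) (side : G.V → Bool)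
    (h : ∀ d : G.E × Bool, (G.lab d.1, d.2) ≠ z → side (G.org d) = s (G.lab d.1, d.2))
    (L : List (G.E × Bool)) (u w : G.V) (hL : IsPath G.src G.tgt u L w) :
    ∃ k, SW z s (side u) (readW G.lab L) (side w) k ∧
      ∀ d ∈ L, trav z s (side (G.org d)) (G.lab d.1, d.2) (side (G.org (inv d))) ≤ k := by
  induction L generalizing u with
  | nil =>
    simp only [IsPath] at hL
    subst hL
    exact ⟨0, SW.nil _, by simp⟩
  | cons d L ih =>
    rcases d with ⟨e, b⟩
    obtain ⟨hu, hL⟩ := hL
    obtain ⟨k, hk, hk'⟩ := ih _ hL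
    have hu' : u = G.org (e, b) := hu
    have hm : (if b then G.tgt e else G.src e) = G.org (inv (e, b)) := by
      cases b <;> rfl
    rw [hm] at hk hL
    refine ⟨k + trav z s (side u) (G.lab e, b) (side (G.org (inv (e, b)))), ?_, ?_⟩
    · refine SW.cons (G.lab e, b) (readW G.lab L) _ _ _ k ?_ ?_ hk
      · intro hg
        rw [hu']
        exact h (e, b) hg
      · intro hg
        exact h (inv (e, b)) hg
    · intro d hd
      rcases List.mem_cons.1 hd with rfl | hd
      · rw [hu']; simp
      · exact (hk' d hd).trans (Nat.le_add_right _ _)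

end paths

section petals
variable {n : ℕ}

/-- the points on the petals -/
def h71pt (w : Fin n → List (Lt n)) (i : Fin n) (j : ℕ) :
    Option (Σ i : Fin n, Fin ((w i).length - 1)) :=
  if h : 0 < j ∧ j < (w i).length then some ⟨i, ⟨j - 1, by omega⟩⟩ else none

/-- the subdivided rose -/
@[reducible] def h71G (w : Fin n → List (Lt n)) : LGraph (Fin n) where
  V := Option (Σ i : Fin n, Fin ((w i).length - 1))
  E := Σ i : Fin n, Fin (w i).length
  src e := if ((w e.1).get e.2).2 then h71pt w e.1 e.2 else h71pt w e.1 (e.2 + 1)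
  tgt e := if ((w e.1).get e.2).2 then h71pt w e.1 (e.2 + 1) else h71pt w e.1 e.2
  lab e := ((w e.1).get e.2).1

theorem h71_petal (w : Fin n → List (Lt n)) (i : Fin n) (j : ℕ) (hj : j ≤ (w i).length) :
    ∃ L : List ((h71G w).E × Bool), IsPath (h71G w).src (h71G w).tgt none L (h71pt w i j) ∧
      readW (h71G w).lab L = (w i).take j ∧
      ∀ (m : ℕ) (hm : m < (w i).length), m < j →
        ((⟨i, ⟨m, hm⟩⟩ : Σ i : Fin n, Fin (w i).length), ((w i).get ⟨m, hm⟩).2) ∈ L := by
  induction j with
  | zero =>
    refine ⟨[], ?_, by simp [readW], by simp⟩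
    have : h71pt w i 0 = none := by simp [h71pt]
    rw [this]
    exact rfl
  | succ j ih =>
    obtain ⟨L, h1, h2, h3⟩ := ih (by omega)
    have hj' : j < (w i).length := hj
    set e : (h71G w).E := (⟨i, ⟨j, hj'⟩⟩ : Σ i : Fin n, Fin (w i).length) with he
    have hb1 : (if ((w i).get ⟨j, hj'⟩).2 then (h71G w).src e else (h71G w).tgt e) =
        h71pt w i j := by
      change (if ((w i).get ⟨j, hj'⟩).2 then (if ((w i).get ⟨j, hj'⟩).2 then h71pt w i j else
        h71pt w i (j + 1)) else (if ((w i).get ⟨j, hj'⟩).2 then h71pt w i (j + 1) else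
        h71pt w i j)) = _
      by_cases hb : ((w i).get ⟨j, hj'⟩).2 = true
      · rw [if_pos hb, if_pos hb]
      · rw [if_neg hb, if_neg hb]
    have hb2 : (if ((w i).get ⟨j, hj'⟩).2 then (h71G w).tgt e else (h71G w).src e) =
        h71pt w i (j + 1) := by
      change (if ((w i).get ⟨j, hj'⟩).2 then (if ((w i).get ⟨j, hj'⟩).2 then h71pt w i (j + 1) else
        h71pt w i j) else (if ((w i).get ⟨j, hj'⟩).2 then h71pt w i j else
        h71pt w i (j + 1))) = _
      by_cases hb : ((w i).get ⟨j, hj'⟩).2 = true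
      · rw [if_pos hb, if_pos hb]
      · rw [if_neg hb, if_neg hb]
    refine ⟨L ++ [(e, ((w i).get ⟨j, hj'⟩).2)], ?_, ?_, ?_⟩
    · rw [h71_path_append]
      refine ⟨_, h1, ?_⟩
      have := h71_path_single (s := (h71G w).src) (t := (h71G w).tgt) e ((w i).get ⟨j, hj'⟩).2
      rw [hb1, hb2] at this
      exact this
    · rw [h71_readW_append, h2, List.take_add_one]
      congr 1
      rw [List.getElem?_eq_getElem hj']
      rfl
    · intro m hm hmj
      rcases Nat.lt_succ_iff_lt_or_eq.1 hmj with hlt | heq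
      · exact List.mem_append_left _ (h3 m hm hlt)
      · subst heq
        exact List.mem_append_right _ (List.mem_singleton.2 rfl)

theorem h71_con (w : Fin n → List (Lt n)) : (h71G w).Con (none : Option _) := by
  intro u
  rcases u with _ | ⟨i, j⟩
  · exact ⟨[], rfl⟩
  · obtain ⟨L, h1, _⟩ := h71_petal w i (j + 1) (by have := j.2; omega)
    refine ⟨L, ?_⟩
    have : h71pt w i (j + 1) = some ⟨i, j⟩ := by
      have := j.2
      simp only [h71pt]
      rw [dif_pos (by omega)]
      rfl
    rw [this] at h1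
    exact h1

theorem h71_card (w : Fin n → List (Lt n)) (hw : ∀ i, 1 ≤ (w i).length) :
    Fintype.card (h71G w).E + 1 = Fintype.card (h71G w).V + n := by
  have h1 : Fintype.card (h71G w).E = ∑ i, (w i).length := by
    change Fintype.card (Σ i : Fin n, Fin (w i).length) = _
    simp
  have h2 : Fintype.card (h71G w).V = (∑ i, ((w i).length - 1)) + 1 := by
    change Fintype.card (Option (Σ i : Fin n, Fin ((w i).length - 1))) = _
    rw [Fintype.card_option]
    simp
  rw [h1, h2]
  have h3 : ∑ i : Fin n, (w i).length = ∑ i : Fin n, ((w i).length - 1) + n := by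
    have h4 : ∑ i : Fin n, ((w i).length - 1) + ∑ _i : Fin n, 1 = ∑ i : Fin n, (w i).length := by
      rw [← Finset.sum_add_distrib]
      apply Finset.sum_congr rfl
      intro i _
      have := hw i
      omega
    simp only [Finset.sum_const, Finset.card_univ, Fintype.card_fin, smul_eq_mul, mul_one] at h4
    exact h4.symm
  omega

end petals

theorem h71_fold_aux (h1 : LFGenStatement) (h3 : SplitShortStatement) (n : ℕ) (v : FG n) (N : ℕ) :
    ∀ φ : FG n ≃* FG n, ∑ i, (φ (of i)).norm = N →
      ∃ M ≤ 1 + N, Conn n 9 (v.norm * N) M v (φ v) := by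
  induction N using Nat.strong_induction_on with
  | _ N ih =>
  intro φ hN
  have hpos : ∀ i, 1 ≤ (φ (of i)).norm := by
    intro i
    rw [Nat.one_le_iff_ne_zero]
    intro h0
    rw [FreeGroup.norm_eq_zero] at h0
    have : (of i : FG n) = 1 := by
      apply φ.injective; rw [h0, _root_.map_one]
    exact of_ne_one i this
  have hle : ∀ i, (φ (of i)).norm ≤ N := by
    intro i
    rw [← hN]
    exact Finset.single_le_sum (f := fun i => (φ (of i)).norm) (fun _ _ => Nat.zero_le _)
      (Finset.mem_univ i)
  have hφv : (φ v).norm ≤ v.norm * N := h71_norm_map_le φ.toMonoidHom N hle v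
  by_cases hbig : ∃ i, 2 ≤ (φ (of i)).norm
  · -- fold
    set w : Fin n → List (Lt n) := fun i => (φ (of i)).toWord with hw
    have hwpos : ∀ i, 1 ≤ (w i).length := hpos
    have hcard := h71_card w hwpos
    have hV : 2 ≤ Fintype.card (h71G w).V := by
      obtain ⟨i, hi⟩ := hbig
      have h2 : Fintype.card (h71G w).V = (∑ i, ((w i).length - 1)) + 1 := by
        change Fintype.card (Option (Σ i : Fin n, Fin ((w i).length - 1))) = _
        rw [Fintype.card_option]
        simp
      have h4 : (w i).length - 1 ≤ ∑ i, ((w i).length - 1) :=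
        Finset.single_le_sum (f := fun i => (w i).length - 1) (fun _ _ => Nat.zero_le _)
          (Finset.mem_univ i)
      have h5 : 2 ≤ (w i).length := hi
      omega
    have hpet : ∀ i, ∃ L : List ((h71G w).E × Bool),
        IsPath (h71G w).src (h71G w).tgt (none : Option _) L (none : Option _) ∧
        readW (h71G w).lab L = w i ∧
        ∀ (m : ℕ) (hm : m < (w i).length),
          ((⟨i, ⟨m, hm⟩⟩ : Σ i : Fin n, Fin (w i).length), ((w i).get ⟨m, hm⟩).2) ∈ L := by
      intro i
      obtain ⟨L, h4, h5, h6⟩ := h71_petal w i (w i).length le_rfl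
      refine ⟨L, ?_, ?_, fun m hm => h6 m hm hm⟩
      · have : h71pt w i (w i).length = none := by
          simp [h71pt]
        rw [this] at h4
        exact h4
      · rw [h5, List.take_length]
    have hsurj : (h71G w).Surj (none : Option _) := by
      refine h71_surj_of _ φ.toMonoidHom φ.surjective ?_
      intro i
      obtain ⟨L, h4, h5, _⟩ := hpet i
      refine ⟨L, h4, ?_⟩
      rw [h5]
      exact mk_toWord
    obtain ⟨z, s, side, hs1, hs2⟩ := h1 n (h71G w) (none : Option _) (h71_con w) hsurj hcard hV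
    obtain ⟨τ, c, hτ, hc, hτc⟩ := h3 n z s
    set a : Bool := side (none : Option _) with ha
    have hred : ∀ i, ∃ k, (c a * τ (φ (of i)) * (c a)⁻¹).norm + k ≤ (φ (of i)).norm ∧
        ∀ (m : ℕ) (hm : m < (w i).length),
          trav z s (side ((h71G w).org ((⟨i, ⟨m, hm⟩⟩ : Σ i : Fin n, Fin (w i).length),
            ((w i).get ⟨m, hm⟩).2)))
            (((w i).get ⟨m, hm⟩).1, ((w i).get ⟨m, hm⟩).2)
            (side ((h71G w).org (inv ((⟨i, ⟨m, hm⟩⟩ : Σ i : Fin n, Fin (w i).length),
            ((w i).get ⟨m, hm⟩).2)))) ≤ k := by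
      intro i
      obtain ⟨L, h4, h5, h6⟩ := hpet i
      obtain ⟨k, h7, h8⟩ := h71_sw z s side hs1 L _ _ h4
      rw [h5] at h7
      refine ⟨k, ?_, ?_⟩
      · have := hτc a (w i) a k h7
        have hmk : (mk (w i) : FG n) = φ (of i) := mk_toWord
        rw [hmk] at this
        exact this
      · intro m hm
        exact h8 _ (h6 m hm)
    -- a petal which is shortened
    have hex : ∃ i, (c a * τ (φ (of i)) * (c a)⁻¹).norm + 1 ≤ (φ (of i)).norm := by
      obtain ⟨⟨⟨i, ⟨m, hm⟩⟩, b⟩, hd1, hd2⟩ := hs2 (!(s (inv z)))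
      obtain ⟨k, hk1, hk2⟩ := hred i
      have hk3 := hk2 m hm
      refine ⟨i, le_trans (Nat.add_le_add_left ?_ _) hk1⟩
      refine le_trans (le_of_eq ?_) hk3
      symm
      have hd1' : (((w i).get ⟨m, hm⟩).1, b) = z := hd1
      rw [trav, if_pos]
      by_cases hb : ((w i).get ⟨m, hm⟩).2 = b
      · left
        rw [hb]
        refine ⟨hd1', ?_⟩
        intro h9
        rw [h9] at hd2
        simp at hd2
      · right
        have hb' : ((w i).get ⟨m, hm⟩).2 = !b := by
          revert hb
          cases ((w i).get ⟨m, hm⟩).2 <;> cases b <;> simp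
        refine ⟨?_, ?_⟩
        · rw [← hd1', hb']; rfl
        · intro h9
          rw [hb'] at h9
          have h10 : inv ((⟨i, ⟨m, hm⟩⟩ : Σ i : Fin n, Fin (w i).length), !b) =
            ((⟨i, ⟨m, hm⟩⟩ : Σ i : Fin n, Fin (w i).length), b) := by simp [inv]
          rw [h10, hd2] at h9
          simp at h9
    set ψ : FG n ≃* FG n := τ.trans (MulAut.conj (c a)) with hψ
    have hψa : ∀ x, ψ x = c a * τ x * (c a)⁻¹ := fun x => by
      simp [hψ, MulAut.conj_apply]
    set φ' : FG n ≃* FG n := φ.trans ψ with hφ'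
    have hφ'a : ∀ x, φ' x = c a * τ (φ x) * (c a)⁻¹ := fun x => by
      rw [hφ', MulEquiv.trans_apply, hψa]
    have hsum : ∑ i, (φ' (of i)).norm < N := by
      rw [← hN]
      obtain ⟨i, hi⟩ := hex
      apply Finset.sum_lt_sum
      · intro j _
        obtain ⟨k, hk1, _⟩ := hred j
        rw [hφ'a]; omega
      · exact ⟨i, Finset.mem_univ i, by rw [hφ'a]; omega⟩
    obtain ⟨M, hM, hconn⟩ := ih _ hsum φ' rfl
    have hσ : Small n 9 ψ.symm := by
      intro i
      constructor
      · have h4 : ψ.symm (of i) = τ.symm ((c a)⁻¹ * of i * c a) := by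
          rw [MulEquiv.symm_apply_eq, hψa, MulEquiv.apply_symm_apply]
          group
        rw [h4]
        have h5 : ((c a)⁻¹ * of i * c a).norm ≤ 3 := by
          refine (FreeGroup.norm_mul_le _ _).trans ?_
          have := FreeGroup.norm_mul_le (c a)⁻¹ (of i)
          rw [FreeGroup.norm_inv_eq, FreeGroup.norm_of] at this
          have := hc a
          omega
        have h6 := h71_norm_map_le τ.symm.toMonoidHom 3 (fun i => (hτ i).2)
          ((c a)⁻¹ * of i * c a)
        have h7 : (τ.symm.toMonoidHom ((c a)⁻¹ * of i * c a)) =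
          τ.symm ((c a)⁻¹ * of i * c a) := rfl
        rw [h7] at h6
        omega
      · rw [MulEquiv.symm_symm, hψa]
        refine (FreeGroup.norm_mul_le _ _).trans ?_
        have h8 := FreeGroup.norm_mul_le (c a) (τ (of i))
        rw [FreeGroup.norm_inv_eq]
        have := hc a
        have := (hτ i).1
        omega
    refine ⟨M + 1, by omega, ?_⟩
    have h9 : ψ.symm (φ' v) = φ v := by
      rw [MulEquiv.symm_apply_eq, hφ', MulEquiv.trans_apply]
    have h10 := h71_conn_snoc (h71_conn_mono (by norm_num) hconn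
      (Nat.mul_le_mul_left v.norm hsum.le) le_rfl) hσ (by rw [h9]; exact hφv)
    rw [h9] at h10
    exact h10
  · -- all images are letters
    have hone : ∀ i, (φ (of i)).norm = 1 := by
      intro i
      have := hpos i
      by_contra h
      exact hbig ⟨i, by omega⟩
    have hlet : ∀ i, ∃ j : Fin n, φ (of i) = of j ∨ φ (of i) = (of j)⁻¹ := by
      intro i
      have h4 : (φ (of i)).toWord.length = 1 := hone i
      obtain ⟨x, hx⟩ := List.length_eq_one_iff.1 h4
      have h5 : φ (of i) = mk [x] := by rw [← hx, mk_toWord]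
      rw [h71_mk_single] at h5
      refine ⟨x.1, ?_⟩
      by_cases hx2 : x.2 = true
      · rw [if_pos hx2] at h5; exact Or.inl h5
      · rw [if_neg hx2] at h5; exact Or.inr h5
    choose π hπ using hlet
    have hinj : Function.Injective π := by
      intro i i' h
      have h4 : φ (of i) = φ (of i') ∨ φ (of i) = φ (of i')⁻¹ := by
        rw [_root_.map_inv]
        rcases hπ i with h5 | h5 <;> rcases hπ i' with h6 | h6 <;> rw [h5, h6, h] <;> simp
      rcases h4 with h4 | h4
      · exact of_injective (φ.injective h4)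
      · have h5 := φ.injective h4
        exfalso
        have h6 := congrArg toWord h5
        rw [toWord_inv, toWord_of, toWord_of] at h6
        simp [invRev] at h6
    have hsurj : Function.Surjective π := Finite.injective_iff_surjective.1 hinj
    have hsm : Small n 9 φ := by
      intro j
      refine ⟨by rw [hone]; norm_num, ?_⟩
      obtain ⟨i, rfl⟩ := hsurj j
      rcases hπ i with h5 | h5
      · rw [← h5, MulEquiv.symm_apply_apply, FreeGroup.norm_of]; norm_num
      · have h6 : (of (π i) : FG n) = φ (of i)⁻¹ := by rw [_root_.map_inv, h5, _root_.inv_inv]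
        rw [h6, MulEquiv.symm_apply_apply, FreeGroup.norm_inv_eq, FreeGroup.norm_of]; norm_num
    have hv : v.norm ≤ v.norm * N := by
      rcases Nat.eq_zero_or_pos n with hn | hn
      · subst hn
        have : v = 1 := by
          have h7 : v.toWord = [] := by
            cases h8 : v.toWord with
            | nil => rfl
            | cons x _ => exact absurd x.1.2 (Nat.not_lt_zero _)
          rw [← mk_toWord (x := v), h7]; rfl
        rw [this, FreeGroup.norm_one]; simp
      · have := hpos ⟨0, hn⟩
        have := hle ⟨0, hn⟩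
        nlinarith [Nat.zero_le v.norm]
    exact ⟨1, by omega, h71_conn_cons hv hsm (h71_conn_refl hφv)⟩

/-- FOLDPATH -/
theorem foldPath (h1 : LFGenStatement) (h3 : SplitShortStatement) : FoldPathStatement := by
  intro n φ v
  obtain ⟨M, hM, hconn⟩ := h71_fold_aux h1 h3 n v _ φ rfl
  exact h71_conn_mono (by norm_num) hconn le_rfl hM

end Pool.Agent.Helper35_WH
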