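import Pool.Agent.Helper71_WH.FoldPath

/-!
# Module GREEDY of the squad MP_8184a0_lc (helper71)
-/

namespace Pool.Agent.Helper35_WH

open FreeGroup Pool.Agent.Helper32_HCK

theorem h71_norm_map {α β : Type} [DecidableEq α] [DecidableEq β] (f : α → β)
    (hf : Function.Injective f) (x : FreeGroup α) :
    (FreeGroup.map f x).norm = x.norm := by
  have h1 : FreeGroup.map f x = mk (x.toWord.map fun y => (f y.1, y.2)) := by
    conv_lhs => rw [← mk_toWord (x := x)]
    rw [map.mk]
  have h2 : IsReduced (x.toWord.map fun y => (f y.1, y.2)) := by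
    have h3 : IsReduced x.toWord := isReduced_toWord
    unfold FreeGroup.IsReduced at h3 ⊢
    rw [List.isChain_map]
    refine List.IsChain.imp ?_ h3
    intro a b hab h
    exact hab (hf h)
  rw [h1, FreeGroup.norm, toWord_mk, h2.reduce_eq, List.length_map, FreeGroup.norm]

section ext
variable {k n : ℕ} (hk : k ≤ n)

/-- extension of a homomorphism by the identity on the further letters -/
noncomputable def h71ext (τ : FG k →* FG k) : FG n →* FG n :=
  FreeGroup.lift fun i : Fin n => if h : i.1 < k then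
    FreeGroup.map (Fin.castLE hk) (τ (of ⟨i.1, h⟩)) else of i

theorem h71ext_of_lt (τ : FG k →* FG k) (i : Fin k) :
    h71ext hk τ (of (Fin.castLE hk i)) = FreeGroup.map (Fin.castLE hk) (τ (of i)) := by
  rw [h71ext, lift_apply_of]
  have h : (Fin.castLE hk i).1 < k := i.2
  rw [dif_pos h]
  rfl

theorem h71ext_of_ge (τ : FG k →* FG k) (i : Fin n) (h : ¬ i.1 < k) :
    h71ext hk τ (of i) = of i := by
  rw [h71ext, lift_apply_of, dif_neg h]

theorem h71ext_map (τ : FG k →* FG k) (x : FG k) :
    h71ext hk τ (FreeGroup.map (Fin.castLE hk) x) = FreeGroup.map (Fin.castLE hk) (τ x) := by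
  have h : (h71ext hk τ).comp (FreeGroup.map (Fin.castLE hk)) =
      (FreeGroup.map (Fin.castLE hk)).comp τ := by
    ext1 i
    simp only [MonoidHom.comp_apply, map.of]
    exact h71ext_of_lt hk τ i
  exact DFunLike.congr_fun h x

theorem h71ext_comp (τ σ : FG k →* FG k) (h : ∀ x, τ (σ x) = x) (x : FG n) :
    h71ext hk τ (h71ext hk σ x) = x := by
  have h2 : (h71ext hk τ).comp (h71ext hk σ) = MonoidHom.id _ := by
    ext1 i
    simp only [MonoidHom.comp_apply, MonoidHom.id_apply]
    by_cases hi : i.1 < k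
    · have hi' : i = Fin.castLE hk ⟨i.1, hi⟩ := rfl
      rw [hi', h71ext_of_lt, h71ext_map, h, map.of]
    · rw [h71ext_of_ge hk σ i hi, h71ext_of_ge hk τ i hi]
  exact DFunLike.congr_fun h2 x

/-- extension of an automorphism -/
noncomputable def h71extE (τ : FG k ≃* FG k) : FG n ≃* FG n where
  toFun := h71ext hk τ.toMonoidHom
  invFun := h71ext hk τ.symm.toMonoidHom
  left_inv x := h71ext_comp hk _ _ (fun x => τ.symm_apply_apply x) x
  right_inv x := h71ext_comp hk _ _ (fun x => τ.apply_symm_apply x) x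
  map_mul' x y := _root_.map_mul _ x y

theorem h71extE_small (τ : FG k ≃* FG k) (hτ : Small k 9 τ) : Small n 9 (h71extE hk τ) := by
  intro i
  have h1 : h71extE hk τ (of i) = h71ext hk τ.toMonoidHom (of i) := rfl
  have h2 : (h71extE hk τ).symm (of i) = h71ext hk τ.symm.toMonoidHom (of i) := rfl
  rw [h1, h2]
  by_cases hi : i.1 < k
  · have hi' : i = Fin.castLE hk ⟨i.1, hi⟩ := rfl
    rw [hi', h71ext_of_lt, h71ext_of_lt, h71_norm_map _ (Fin.castLE_injective hk),
      h71_norm_map _ (Fin.castLE_injective hk)]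
    exact hτ ⟨i.1, hi⟩
  · rw [h71ext_of_ge hk _ i hi, h71ext_of_ge hk _ i hi, FreeGroup.norm_of]
    norm_num

end ext

theorem h71_lift_word {k : ℕ} (L : List (Lt (k + 1))) (h : ∀ x ∈ L, x.1 ≠ Fin.last k) :
    ∃ L' : List (Lt k), L'.map (fun x => (x.1.castSucc, x.2)) = L := by
  induction L with
  | nil => exact ⟨[], rfl⟩
  | cons x L ih =>
    obtain ⟨L', hL'⟩ := ih (fun y hy => h y (List.mem_cons_of_mem _ hy))
    have hx := h x (by simp)
    obtain ⟨j, hj⟩ := Fin.exists_castSucc_eq.2 hx
    exact ⟨(j, x.2) :: L', by simp [hj, hL']⟩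

theorem h71_greedy_aux (h4 : ReduceStatement) (n : ℕ) (m : ℕ) :
    ∀ (k : ℕ) (hk : k ≤ n) (u : FG k), u.norm + k = m →
      ∃ (k' : ℕ) (hk' : k' ≤ n) (L : List (Lt k')), IsCyclicallyReduced L ∧ AllLetters L ∧
        Tight L ∧ L.length ≤ u.norm ∧ Conn n 9 u.norm (u.norm + k)
          (FreeGroup.map (Fin.castLE hk) u) (FreeGroup.map (Fin.castLE hk') (mk L)) := by
  induction m using Nat.strong_induction_on with
  | _ m ih =>
  intro k hk u hm
  -- the reduction step
  have step : ∀ (k₁ : ℕ) (hk₁ : k₁ ≤ n) (u₁ : FG k₁) (τ : FG n ≃* FG n), Small n 9 τ →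
      τ (FreeGroup.map (Fin.castLE hk) u) = FreeGroup.map (Fin.castLE hk₁) u₁ →
      u₁.norm ≤ u.norm → u₁.norm + k₁ < u.norm + k →
      ∃ (k' : ℕ) (hk' : k' ≤ n) (L : List (Lt k')), IsCyclicallyReduced L ∧ AllLetters L ∧
        Tight L ∧ L.length ≤ u.norm ∧ Conn n 9 u.norm (u.norm + k)
          (FreeGroup.map (Fin.castLE hk) u) (FreeGroup.map (Fin.castLE hk') (mk L)) := by
    intro k₁ hk₁ u₁ τ hτ hτu hn hlt
    obtain ⟨k', hk', L, h5, h6, h7, h8, h9⟩ := ih _ (by omega) k₁ hk₁ u₁ rfl
    refine ⟨k', hk', L, h5, h6, h7, h8.trans hn, ?_⟩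
    rw [← hτu] at h9
    have h10 := h71_conn_cons (K := 9) (L := u.norm)
      (le_of_eq (h71_norm_map _ (Fin.castLE_injective hk) u)) hτ
      (h71_conn_mono (by norm_num) h9 hn le_rfl)
    exact h71_conn_mono (by norm_num) h10 le_rfl (by omega)
  by_cases hc : IsCyclicallyReduced u.toWord
  swap
  · -- conjugation
    have hred : IsReduced u.toWord := isReduced_toWord
    obtain ⟨b, L, a, hL⟩ : ∃ b L a, u.toWord = b :: L ++ [a] := by
      cases h5 : u.toWord with
      | nil => rw [h5] at hc; exact absurd IsCyclicallyReduced.nil hc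
      | cons b T =>
        rcases List.eq_nil_or_concat T with h6 | ⟨L, a, h6⟩
        · rw [h5, h6] at hc; exact absurd IsCyclicallyReduced.singleton hc
        · exact ⟨b, L, a, by rw [h6]; simp⟩
    rw [hL] at hc hred
    rw [isCyclicallyReduced_cons_append_iff] at hc
    have hab : a.1 = b.1 ∧ a.2 ≠ b.2 := by
      by_contra h5
      apply hc
      refine ⟨hred, fun h6 => ?_⟩
      by_contra h7
      exact h5 ⟨h6, h7⟩
    have ha : (mk [a] : FG k) = (mk [b])⁻¹ := by
      rw [inv_mk]
      congr 1
      have : a.2 = !b.2 := by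
        have := hab.2
        revert this
        cases a.2 <;> cases b.2 <;> simp
      simp only [invRev, List.map_cons, List.map_nil, List.reverse_singleton]
      rw [← this, ← hab.1]
    have hu : u = mk [b] * mk L * (mk [b])⁻¹ := by
      rw [← ha, ← mk_toWord (x := u), hL, mul_mk, mul_mk]
      rfl
    have hnu : u.norm = L.length + 2 := by
      rw [FreeGroup.norm, hL]; simp
    have hnl : (mk L : FG k).norm ≤ L.length := norm_mk_le
    refine step k hk (mk L) (MulAut.conj (FreeGroup.map (Fin.castLE hk) (mk [b]))⁻¹) ?_ ?_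
      (by omega) (by omega)
    · have hb1 : (FreeGroup.map (Fin.castLE hk) (mk [b] : FG k)).norm ≤ 1 := by
        rw [h71_norm_map _ (Fin.castLE_injective hk)]
        exact norm_mk_le
      intro i
      constructor
      · rw [MulAut.conj_apply]
        refine (FreeGroup.norm_mul_le _ _).trans ?_
        have h5 := FreeGroup.norm_mul_le (FreeGroup.map (Fin.castLE hk) (mk [b] : FG k))⁻¹ (of i)
        rw [FreeGroup.norm_inv_eq] at h5 ⊢
        rw [FreeGroup.norm_inv_eq]
        rw [FreeGroup.norm_of] at h5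
        omega
      · rw [MulAut.conj_symm_apply]
        refine (FreeGroup.norm_mul_le _ _).trans ?_
        have h5 := FreeGroup.norm_mul_le (FreeGroup.map (Fin.castLE hk) (mk [b] : FG k))⁻¹⁻¹ (of i)
        rw [FreeGroup.norm_inv_eq, FreeGroup.norm_inv_eq] at h5
        rw [FreeGroup.norm_inv_eq]
        rw [FreeGroup.norm_of] at h5
        omega
    · rw [MulAut.conj_apply]
      conv_lhs => rw [hu]
      simp only [_root_.map_mul, _root_.map_inv]
      group
  by_cases hall : AllLetters u.toWord
  swap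
  · -- a letter is missing
    unfold AllLetters at hall
    push Not at hall
    obtain ⟨i, hi⟩ := hall
    obtain ⟨k', rfl⟩ : ∃ k', k = k' + 1 := ⟨k - 1, by have := i.2; omega⟩
    set π : Fin (k' + 1) ≃ Fin (k' + 1) := Equiv.swap i (Fin.last k') with hπ
    have hmk : FreeGroup.map π u = mk (u.toWord.map fun y => (π y.1, y.2)) := by
      conv_lhs => rw [← mk_toWord (x := u)]
      rw [map.mk]
    obtain ⟨L', hL'⟩ := h71_lift_word (u.toWord.map fun y => (π y.1, y.2)) (by
      intro x hx
      obtain ⟨y, hy, rfl⟩ := List.mem_map.1 hx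
      simp only
      intro h5
      have h6 : y.1 = i := by
        have h7 : π y.1 = π i := by rw [h5, hπ, Equiv.swap_apply_left]
        exact π.injective h7
      exact hi y.2 (by rw [← h6]; exact hy))
    have hu' : FreeGroup.map Fin.castSucc (mk L' : FG k') = FreeGroup.map π u := by
      rw [map.mk, hL', hmk]
    have hn' : (mk L' : FG k').norm = u.norm := by
      rw [← h71_norm_map Fin.castSucc (Fin.castSucc_injective k') (mk L'), hu',
        h71_norm_map π π.injective]
    set σ : Fin n ≃ Fin n := Equiv.swap (Fin.castLE hk i) (Fin.castLE hk (Fin.last k')) with hσ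
    have hσc : ∀ j, σ (Fin.castLE hk j) = Fin.castLE hk (π j) := by
      intro j
      rw [hσ, hπ]
      exact (Fin.castLE_injective hk).swap_apply i (Fin.last k') j
    refine step k' (by omega) (mk L') (freeGroupCongr σ) ?_ ?_ (le_of_eq hn') (by omega)
    · intro j
      constructor
      · have : freeGroupCongr σ (of j) = of (σ j) := by
          change FreeGroup.map σ (of j) = _
          rw [map.of]
        rw [this, FreeGroup.norm_of]; norm_num
      · have : (freeGroupCongr σ).symm (of j) = of (σ.symm j) := by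
          change FreeGroup.map σ.symm (of j) = _
          rw [map.of]
        rw [this, FreeGroup.norm_of]; norm_num
    · change FreeGroup.map σ (FreeGroup.map (Fin.castLE hk) u) = _
      have h5 : FreeGroup.map (Fin.castLE (by omega : k' ≤ n)) (mk L' : FG k') =
          FreeGroup.map (Fin.castLE hk) (FreeGroup.map Fin.castSucc (mk L' : FG k')) := by
        rw [map.comp]
        rfl
      rw [h5, hu', map.comp, map.comp]
      congr 2
      ext1 j
      exact hσc j
  by_cases ht : Tight u.toWord
  · refine ⟨k, hk, u.toWord, hc, hall, ht, le_rfl, ?_⟩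
    rw [mk_toWord]
    exact h71_conn_mono (by norm_num) (h71_conn_refl
      (le_of_eq (h71_norm_map _ (Fin.castLE_injective hk) u))) le_rfl (Nat.zero_le _)
  · obtain ⟨τ, hτ, hlt⟩ := h4 k u.toWord hall ht
    rw [mk_toWord] at hlt
    have hlt' : (τ u).norm < u.norm := hlt
    refine step k hk (τ u) (h71extE hk τ) (h71extE_small hk τ hτ) ?_ hlt'.le (by omega)
    exact h71ext_map hk τ.toMonoidHom u

/-- GREEDY -/
theorem greedy (h4 : ReduceStatement) : GreedyStatement := by
  intro n v
  obtain ⟨k, hk, L, h1, h2, h3, h5, h6⟩ := h71_greedy_aux h4 n _ n le_rfl v rfl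
  refine ⟨k, hk, L, h1, h2, h3, h5, ?_⟩
  have : FreeGroup.map (Fin.castLE (le_refl n)) v = v := by
    have h7 : (Fin.castLE (le_refl n)) = id := by ext1 i; rfl
    rw [h7]; exact map.id v
  rw [this] at h6
  exact h6

end Pool.Agent.Helper35_WH
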